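import Mathlib

/-!
The five-qubit code: a stabilizer code of distance 3 with a weight-preserving linear
self-bijection that extends to no monomial transformation.
-/

namespace Pool.Agent.Results.MP_711a76_lc.FiveQubitCode

/-- The space `A_q ^ n`, `A_q = F_q ^ 2`. -/
abbrev Space (q n : ℕ) : Type := Fin n → ZMod q × ZMod q

/-- The symplectic form, summed over the coordinates. -/
def symp {q n : ℕ} (u v : Space q n) : ZMod q :=
  ∑ i, ((u i).1 * (v i).2 - (v i).1 * (u i).2)

/-- The weight: the number of nonzero coordinates. -/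
def wt {q n : ℕ} (u : Space q n) : ℕ := (Finset.univ.filter fun i => u i ≠ 0).card

theorem symp_zero {q n : ℕ} (u : Space q n) : symp u 0 = 0 := by
  simp [symp]

theorem symp_add {q n : ℕ} (u a b : Space q n) : symp u (a + b) = symp u a + symp u b := by
  simp only [symp, ← Finset.sum_add_distrib]
  refine Finset.sum_congr rfl fun i _ => ?_
  simp only [Pi.add_apply, Prod.fst_add, Prod.snd_add]
  ring

theorem symp_smul {q n : ℕ} (c : ZMod q) (u a : Space q n) : symp u (c • a) = c * symp u a := by
  simp only [symp, Finset.mul_sum]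
  refine Finset.sum_congr rfl fun i _ => ?_
  simp only [Pi.smul_apply, Prod.smul_fst, Prod.smul_snd, smul_eq_mul]
  ring

/-- The linear functional `v ↦ symp u v`. -/
def sympL {q n : ℕ} (u : Space q n) : Space q n →ₗ[ZMod q] ZMod q where
  toFun v := symp u v
  map_add' := symp_add u
  map_smul' c := symp_smul c u

/-- The symplectic dual: all `v` with `symp u v = 0` for every `u` in `C`. -/
def dual {q n : ℕ} (C : Submodule (ZMod q) (Space q n)) : Submodule (ZMod q) (Space q n) :=
  ⨅ u : C, LinearMap.ker (sympL (u : Space q n))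

theorem mem_dual {q n : ℕ} (C : Submodule (ZMod q) (Space q n)) (v : Space q n) :
    v ∈ dual C ↔ ∀ u ∈ C, symp u v = 0 := by
  simp only [dual, Submodule.mem_iInf, LinearMap.mem_ker, Subtype.forall]
  rfl

open Classical in
/-- The distance of a stabilizer code: the least weight of an element of the dual outside the
code, or, if the code is its own dual, the least weight of a nonzero element of the code. -/
noncomputable def dist {q n : ℕ} (C : Submodule (ZMod q) (Space q n)) : ℕ :=
  if C = dual C then sInf {w | ∃ u ∈ C, u ≠ 0 ∧ w = wt u}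
  else sInf {w | ∃ u ∈ dual C, u ∉ C ∧ w = wt u}

/-- The map `u ↦ (g_1 u_{π⁻¹(1)}, …, g_n u_{π⁻¹(n)})`. -/
def mono {q n : ℕ} (π : Equiv.Perm (Fin n))
    (g : Fin n → ((ZMod q × ZMod q) ≃ₗ[ZMod q] (ZMod q × ZMod q))) (u : Space q n) : Space q n :=
  fun i => g i (u (π.symm i))

/-- A linear bijection between two codes is weight-preserving. -/
def WeightPreserving {q n : ℕ} {C D : Submodule (ZMod q) (Space q n)} (f : C ≃ₗ[ZMod q] D) :
    Prop :=
  ∀ c : C, wt (f c : Space q n) = wt (c : Space q n)

/-- A linear bijection between two codes is the restriction of a monomial transformation. -/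
def ExtendsToMonomial {q n : ℕ} {C D : Submodule (ZMod q) (Space q n)} (f : C ≃ₗ[ZMod q] D) :
    Prop :=
  ∃ (π : Equiv.Perm (Fin n)) (g : Fin n → ((ZMod q × ZMod q) ≃ₗ[ZMod q] (ZMod q × ZMod q))),
    ∀ c : C, (f c : Space q n) = mono π g (c : Space q n)

/-! ### The code -/

/-- The codeword with coefficients `a b c d` with respect to the generators
`XZZXI, IXZZX, XIXZZ, ZXIXZ` (with `X = (1,0)`, `Z = (0,1)`). -/
def word (a b c d : ZMod 2) : Space 2 5 :=
  ![(a + c, d), (b + d, a), (c, a + b), (a + d, b + c), (b, c + d)]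

/-- The encoder. -/
def enc : (Fin 4 → ZMod 2) →ₗ[ZMod 2] Space 2 5 where
  toFun x := word (x 0) (x 1) (x 2) (x 3)
  map_add' := by
    intro x y
    funext i
    fin_cases i <;> ext <;> simp [word] <;> ring
  map_smul' := by
    intro r x
    funext i
    fin_cases i <;> ext <;> simp [word] <;> ring

theorem enc_apply (x : Fin 4 → ZMod 2) : enc x = word (x 0) (x 1) (x 2) (x 3) := rfl

/-- The five-qubit code. -/
def code : Submodule (ZMod 2) (Space 2 5) := LinearMap.range enc

theorem enc_injective : Function.Injective enc := by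
  intro x y h
  have h1 : ∀ a b c d a' b' c' d' : ZMod 2, word a b c d = word a' b' c' d' →
      a = a' ∧ b = b' ∧ c = c' ∧ d = d' := by
    intro a b c d a' b' c' d' h
    have e0 := congrFun h 0
    have e1 := congrFun h 1
    have e2 := congrFun h 2
    have e4 := congrFun h 4
    simp only [word, Matrix.cons_val_zero, Matrix.cons_val_one, Matrix.cons_val, Prod.mk.injEq]
      at e0 e1 e2 e4
    exact ⟨e1.2, e4.1, e2.1, e0.2⟩
  obtain ⟨h0, h2, h3, h4⟩ := h1 _ _ _ _ _ _ _ _ h
  funext i
  fin_cases i <;> assumption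

theorem wt_word : ∀ a b c d : ZMod 2, ¬ (a = 0 ∧ b = 0 ∧ c = 0 ∧ d = 0) →
    wt (word a b c d) = 4 := by
  decide

theorem mem_code_iff (u : Space 2 5) : u ∈ code ↔ ∃ a b c d, u = word a b c d := by
  constructor
  · rintro ⟨x, rfl⟩
    exact ⟨_, _, _, _, rfl⟩
  · rintro ⟨a, b, c, d, rfl⟩
    exact ⟨![a, b, c, d], rfl⟩

theorem symp_word : ∀ a b c d a' b' c' d' : ZMod 2,
    symp (word a b c d) (word a' b' c' d') = 0 := by
  decide

theorem code_le_dual : code ≤ dual code := by
  intro v hv
  rw [mem_dual]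
  intro u hu
  obtain ⟨a, b, c, d, rfl⟩ := (mem_code_iff u).1 hu
  obtain ⟨a', b', c', d', rfl⟩ := (mem_code_iff v).1 hv
  exact symp_word _ _ _ _ _ _ _ _

set_option synthInstance.maxSize 10000 in
/-- A word of weight at most 2 orthogonal to the generators is zero. -/
theorem small_dual : ∀ v0 v1 v2 v3 v4 : ZMod 2 × ZMod 2,
    symp (word 1 0 0 0) ![v0, v1, v2, v3, v4] = 0 →
    symp (word 0 1 0 0) ![v0, v1, v2, v3, v4] = 0 →
    symp (word 0 0 1 0) ![v0, v1, v2, v3, v4] = 0 →
    symp (word 0 0 0 1) ![v0, v1, v2, v3, v4] = 0 →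
    wt (![v0, v1, v2, v3, v4] : Space 2 5) < 3 →
    v0 = 0 ∧ v1 = 0 ∧ v2 = 0 ∧ v3 = 0 ∧ v4 = 0 := by
  decide

theorem word_mem (a b c d : ZMod 2) : word a b c d ∈ code := (mem_code_iff _).2 ⟨a, b, c, d, rfl⟩

theorem eq_vec (u : Space 2 5) : u = ![u 0, u 1, u 2, u 3, u 4] := by
  funext i
  fin_cases i <;> rfl

theorem dual_wt (u : Space 2 5) (hu : u ∈ dual code) (hw : wt u < 3) : u = 0 := by
  rw [mem_dual] at hu
  have h := small_dual (u 0) (u 1) (u 2) (u 3) (u 4)
  rw [← eq_vec u] at h
  obtain ⟨h0, h1, h2, h3, h4⟩ := h (hu _ (word_mem _ _ _ _)) (hu _ (word_mem _ _ _ _))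
    (hu _ (word_mem _ _ _ _)) (hu _ (word_mem _ _ _ _)) hw
  funext i
  fin_cases i <;> assumption

/-- The word `IIXYX`. -/
def logical : Space 2 5 := ![0, 0, (1, 0), (1, 1), (1, 0)]

theorem wt_logical : wt logical = 3 := by decide

theorem symp_logical : ∀ a b c d : ZMod 2, symp (word a b c d) logical = 0 := by decide

theorem logical_ne : ∀ a b c d : ZMod 2, logical ≠ word a b c d := by decide

theorem logical_mem : logical ∈ dual code := by
  rw [mem_dual]
  intro u hu
  obtain ⟨a, b, c, d, rfl⟩ := (mem_code_iff u).1 hu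
  exact symp_logical a b c d

theorem logical_notMem : logical ∉ code := by
  intro h
  obtain ⟨a, b, c, d, h⟩ := (mem_code_iff _).1 h
  exact logical_ne a b c d h

theorem dist_code : dist code = 3 := by
  have hne : code ≠ dual code := fun h => logical_notMem (h ▸ logical_mem)
  unfold dist
  rw [if_neg hne]
  have hmem : (3 : ℕ) ∈ {w | ∃ u ∈ dual code, u ∉ code ∧ w = wt u} :=
    ⟨logical, logical_mem, logical_notMem, wt_logical.symm⟩
  refine le_antisymm (Nat.sInf_le hmem) ?_
  refine le_csInf ⟨3, hmem⟩ ?_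
  rintro w ⟨u, hu, hu', rfl⟩
  by_contra hlt
  have h0 := dual_wt u hu (by omega)
  exact hu' (h0 ▸ code.zero_mem)

theorem finrank_code : Module.finrank (ZMod 2) code = 4 := by
  have h := LinearMap.finrank_range_of_inj enc_injective
  rw [code, h]
  simp

/-- The transvection `(a, b, c, d) ↦ (a, a + b, c, d)` of the message space. -/
def T : (Fin 4 → ZMod 2) ≃ₗ[ZMod 2] (Fin 4 → ZMod 2) where
  toFun x := ![x 0, x 0 + x 1, x 2, x 3]
  invFun x := ![x 0, x 0 + x 1, x 2, x 3]
  map_add' := by
    intro x y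
    funext i
    fin_cases i <;> simp
    ring
  map_smul' := by
    intro r x
    funext i
    fin_cases i <;> simp
    ring
  left_inv := by
    intro x
    funext i
    fin_cases i <;> simp
    rw [← add_assoc, CharTwo.add_self_eq_zero, zero_add]
  right_inv := by
    intro x
    funext i
    fin_cases i <;> simp
    rw [← add_assoc, CharTwo.add_self_eq_zero, zero_add]

/-- The code is linearly isomorphic to the message space. -/
noncomputable def encEquiv : (Fin 4 → ZMod 2) ≃ₗ[ZMod 2] code :=
  LinearEquiv.ofInjective enc enc_injective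

theorem coe_encEquiv (x : Fin 4 → ZMod 2) : (encEquiv x : Space 2 5) = enc x := rfl

/-- The self-bijection of the code. -/
noncomputable def f : code ≃ₗ[ZMod 2] code := (encEquiv.symm.trans T).trans encEquiv

theorem f_encEquiv (x : Fin 4 → ZMod 2) : f (encEquiv x) = encEquiv (T x) := by
  simp [f]

theorem wt_enc (x : Fin 4 → ZMod 2) (hx : x ≠ 0) : wt (enc x) = 4 := by
  rw [enc_apply]
  refine wt_word _ _ _ _ ?_
  rintro ⟨h0, h1, h2, h3⟩
  apply hx
  funext i
  fin_cases i <;> assumption

theorem wt_f (c : code) : wt (f c : Space 2 5) = wt (c : Space 2 5) := by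
  obtain ⟨x, rfl⟩ := encEquiv.surjective c
  rw [f_encEquiv, coe_encEquiv, coe_encEquiv]
  by_cases hx : x = 0
  · subst hx
    simp
  · rw [wt_enc x hx, wt_enc (T x) (by simpa using hx)]

theorem f_not_mono : ¬ ∃ (π : Equiv.Perm (Fin 5))
    (g : Fin 5 → ((ZMod 2 × ZMod 2) ≃ₗ[ZMod 2] (ZMod 2 × ZMod 2))),
    ∀ c : code, (f c : Space 2 5) = mono π g (c : Space 2 5) := by
  rintro ⟨π, g, h⟩
  have key : ∀ a b c d : ZMod 2, word a b c d 4 = 0 → word a (a + b) c d (π 4) = 0 := by
    intro a b c d h0
    have h1 := congrFun (h (encEquiv ![a, b, c, d])) (π 4)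
    rw [f_encEquiv, coe_encEquiv, coe_encEquiv] at h1
    have h2 : mono π g (enc ![a, b, c, d]) (π 4) = 0 := by
      show g (π 4) (enc ![a, b, c, d] (π.symm (π 4))) = 0
      rw [Equiv.symm_apply_apply]
      have : enc ![a, b, c, d] 4 = 0 := h0
      rw [this, map_zero]
    rw [h2] at h1
    exact h1
  have k1 := key 1 0 0 0 (by decide)
  have k2 := key 0 0 1 1 (by decide)
  revert k1 k2
  generalize π 4 = j
  revert j
  decide

/-- **The five-qubit code.**  There is a stabilizer code `C` in `A_2 ^ 5` of dimension 4 and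
distance 3, and a weight-preserving linear bijection `C → C` that extends to no monomial
transformation. -/
theorem result :
    ∃ C : Submodule (ZMod 2) (Space 2 5),
      C ≤ dual C ∧ Module.finrank (ZMod 2) C = 4 ∧ dist C = 3 ∧
      ∃ f : C ≃ₗ[ZMod 2] C, WeightPreserving f ∧ ¬ ExtendsToMonomial f :=
  ⟨code, code_le_dual, finrank_code, dist_code, f, wt_f, f_not_mono⟩

end Pool.Agent.Results.MP_711a76_lc.FiveQubitCode
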